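import Pool.Agent.H14.Dio.Red
import Pool.Agent.H48.MRDP.Bas
import Pool.Agent.H82.MRDP.Prim

/-!
# Undecidability of equations in the one-relator monoid `⟨a, b, c | ababcc = 1⟩`

The letters `a, b, c` are `0, 1, 2 : Fin 3`; elements of the monoid `⟨A | w = 1⟩` are given by words
over `A`, and two words are equal in the monoid if they are related by the smallest congruence
`Eqv w` containing `(w, ε)`.
-/

set_option autoImplicit false

namespace Pool.Agent.Results.MP_d1ce81_al.TrivialUnits

/-- `Eqv w u v`: the words `u` and `v` are equal in the monoid `⟨A | w = 1⟩`, i.e. `(u, v)` lies in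
the smallest congruence on the free monoid containing `(w, ε)`. -/
inductive Eqv {A : Type} (w : List A) : List A → List A → Prop
  | rel : Eqv w w []
  | refl (u : List A) : Eqv w u u
  | symm {u v : List A} : Eqv w u v → Eqv w v u
  | trans {u v x : List A} : Eqv w u v → Eqv w v x → Eqv w u x
  | mul {u v x y : List A} : Eqv w u v → Eqv w x y → Eqv w (u ++ x) (v ++ y)

/-- The value of a word in the letters (`Sum.inl`) and in the variables (`Sum.inr`) when the
variable with index `i` is replaced by the word `s i`. -/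
def subst {A : Type} (s : ℕ → List A) : List (A ⊕ ℕ) → List A
  | [] => []
  | Sum.inl a :: l => a :: subst s l
  | Sum.inr i :: l => s i ++ subst s l

/-- The finite system `S` of equations has a solution in the monoid `⟨A | w = 1⟩`. -/
def Solvable {A : Type} (w : List A) (S : List (List (A ⊕ ℕ) × List (A ⊕ ℕ))) : Prop :=
  ∃ s : ℕ → List A, ∀ e ∈ S, Eqv w (subst s e.1) (subst s e.2)

/-- A unit of the monoid `⟨A | w = 1⟩` together with its inverse. -/
structure UnitPair {A : Type} (w : List A) where
  val : List A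
  inv : List A
  val_inv : Eqv w (val ++ inv) []
  inv_val : Eqv w (inv ++ val) []

/-- The value of a word in the letters `(Sum.inl j, true)` (the generator `g j`),
`(Sum.inr i, true)` (the variable with index `i`) and their inverses, marked by `false`. -/
def value {A : Type} {w : List A} {k : ℕ} (g : Fin k → UnitPair w) (s : ℕ → UnitPair w) :
    List ((Fin k ⊕ ℕ) × Bool) → List A
  | [] => []
  | (x, true) :: l => (Sum.elim g s x).val ++ value g s l
  | (x, false) :: l => (Sum.elim g s x).inv ++ value g s l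

/-- The finite system `S` of equations with constants `g 0, g 1, …` has a solution in the group of
units of the monoid `⟨A | w = 1⟩`. -/
def SolvableInUnits {A : Type} {w : List A} {k : ℕ} (g : Fin k → UnitPair w)
    (S : List (List ((Fin k ⊕ ℕ) × Bool) × List ((Fin k ⊕ ℕ) × Bool))) : Prop :=
  ∃ s : ℕ → UnitPair w, ∀ e ∈ S, Eqv w (value g s e.1) (value g s e.2)

/-- The word `ababcc`. -/
def w : List (Fin 3) := [0, 1, 0, 1, 2, 2]

open Pool.Agent.H14.Dio in
theorem eqv_iff (u v : List (Fin 3)) : Eqv w u v ↔ ev u = ev v := by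
  constructor
  · intro h
    induction h with
    | rel => rw [ev_nil]; exact ev_w6
    | refl u => rfl
    | symm _ ih => exact ih.symm
    | trans _ _ ih1 ih2 => exact ih1.trans ih2
    | mul _ _ ih1 ih2 => rw [ev_append, ev_append, ih1, ih2]
  · intro h
    rw [ev_eq_mk, ev_eq_mk] at h
    have h2 := (Con.eq _).1 h
    have key : ∀ x y : FreeMonoid (Fin 3),
        ConGen.Rel (fun x y : FreeMonoid (Fin 3) => x = FreeMonoid.ofList w6 ∧ y = 1) x y →
          Eqv w (FreeMonoid.toList x) (FreeMonoid.toList y) := by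
      intro x y hxy
      induction hxy with
      | of x y h =>
        obtain ⟨rfl, rfl⟩ := h
        exact Eqv.rel
      | refl x => exact Eqv.refl _
      | symm _ ih => exact ih.symm
      | trans _ _ ih1 ih2 => exact ih1.trans ih2
      | mul _ _ ih1 ih2 => exact ih1.mul ih2
    exact key _ _ h2

open Pool.Agent.H14.Dio in
theorem ev_subst (s : ℕ → List (Fin 3)) (l : List (Fin 3 ⊕ ℕ)) :
    ev (subst s l) = Pool.Agent.H14.Dio.val (fun i => ev (s i)) l := by
  induction l with
  | nil => rfl
  | cons x l ih =>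
    rcases x with a | i
    · rw [val_cons, ← ih]
      exact ev_cons a _
    · rw [val_cons, ← ih]
      exact ev_append _ _

open Pool.Agent.H14.Dio in
theorem solvable_iff' (S : List (List (Fin 3 ⊕ ℕ) × List (Fin 3 ⊕ ℕ))) :
    Solvable w S ↔ ∃ σ : ℕ → M, Solves σ S := by
  constructor
  · rintro ⟨s, hs⟩
    refine ⟨fun i => ev (s i), fun e he => ?_⟩
    have := (eqv_iff _ _).1 (hs e he)
    rwa [ev_subst, ev_subst] at this
  · rintro ⟨σ, hσ⟩
    choose s hs using fun i => exists_word (σ i)
    refine ⟨s, fun e he => (eqv_iff _ _).2 ?_⟩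
    rw [ev_subst, ev_subst]
    have h1 : (fun i => ev (s i)) = σ := funext hs
    rw [h1]
    exact hσ e he

theorem eqv_nil_of_unit {u v : List (Fin 3)} (h1 : Eqv w (u ++ v) []) (h2 : Eqv w (v ++ u) []) :
    Eqv w u [] := by
  rw [eqv_iff, Pool.Agent.H14.Dio.ev_append, Pool.Agent.H14.Dio.ev_nil] at h1 h2
  rw [eqv_iff, Pool.Agent.H14.Dio.ev_nil]
  exact Pool.Agent.H14.Dio.unit_eq_one h1 h2

theorem value_nil {k : ℕ} (g : Fin k → UnitPair w) (s : ℕ → UnitPair w)
    (l : List ((Fin k ⊕ ℕ) × Bool)) : Eqv w (value g s l) [] := by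
  induction l with
  | nil => exact Eqv.refl _
  | cons x l ih =>
    obtain ⟨x, b⟩ := x
    cases b with
    | true =>
      exact Eqv.mul (eqv_nil_of_unit (Sum.elim g s x).val_inv (Sum.elim g s x).inv_val) ih
    | false =>
      exact Eqv.mul (eqv_nil_of_unit (Sum.elim g s x).inv_val (Sum.elim g s x).val_inv) ih

/-- Translation between the two types of basic equations. -/
def conv : Pool.Agent.H48.MRDP.Bas → Pool.Agent.H14.Dio.Bas
  | .one i => .one i
  | .add i j k => .add i j k
  | .mul i j k => .mul i j k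

theorem exists_list {P : ℕ → Prop} (hP : REPred P) : ∃ L : List Pool.Agent.H14.Dio.Bas,
    ∀ n, P n ↔ ∃ x : ℕ → ℕ, x 0 = n ∧ ∀ e ∈ L, e.holds x := by
  have hD : Dioph {v : Unit → ℕ | v () ∈ {n | P n}} :=
    Pool.Agent.H82.MRDP.rePred_dioph hP (Dioph.proj_dioph ())
  obtain ⟨L, hL⟩ := Pool.Agent.H48.MRDP.exists_bas _ hD
  refine ⟨L.map conv, fun n => ?_⟩
  have h1 : P n ↔ n ∈ {n | P n} := Iff.rfl
  rw [h1, hL n]
  refine exists_congr fun x => and_congr_right fun _ => ?_
  simp only [List.mem_map, forall_exists_index, and_imp, forall_apply_eq_imp_iff₂]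
  refine forall₂_congr fun e _ => ?_
  cases e <;> rfl

theorem exists_system {P : ℕ → Prop} (hP : REPred P) :
    ∃ S : List (List (Fin 3 ⊕ ℕ) × List (Fin 3 ⊕ ℕ)), ∀ n,
      P n ↔ Solvable w (([Sum.inr 0], List.replicate n (Sum.inl 2)) :: S) := by
  obtain ⟨L, hL⟩ := exists_list hP
  refine ⟨Pool.Agent.H14.Dio.linkEqs 0 ++ L.flatMap Pool.Agent.H14.Dio.Bas.eqs, fun n => ?_⟩
  rw [hL n, ← Pool.Agent.H14.Dio.solvable_iff, ← solvable_iff']
  have h0 : Pool.Agent.H14.Dio.vr 0 0 = Sum.inr 0 := by
    unfold Pool.Agent.H14.Dio.vr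
    rfl
  unfold Pool.Agent.H14.Dio.sys
  rw [h0]

theorem exists_re : ∃ P : ℕ → Prop, REPred P ∧ ¬ ComputablePred P := by
  have hre : REPred fun n : ℕ =>
      (Nat.Partrec.Code.eval (Denumerable.ofNat Nat.Partrec.Code n) 0).Dom :=
    (ComputablePred.halting_problem_re 0).comp (Computable.ofNat _)
  refine ⟨_, hre, fun hcomp => ?_⟩
  apply ComputablePred.halting_problem 0
  obtain ⟨f, hf, hfe⟩ := ComputablePred.computable_iff.1 hcomp
  refine ComputablePred.computable_iff.2 ⟨fun c => f (Encodable.encode c),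
    hf.comp Computable.encode, ?_⟩
  funext c
  have h := congrFun hfe (Encodable.encode c)
  simpa using h

theorem computable_sys (S : List (List (Fin 3 ⊕ ℕ) × List (Fin 3 ⊕ ℕ))) :
    Computable fun n : ℕ =>
      (([Sum.inr 0], List.replicate n (Sum.inl 2)) :: S :
        List (List (Fin 3 ⊕ ℕ) × List (Fin 3 ⊕ ℕ))) := by
  refine Primrec.to_comp (Primrec.list_cons.comp (Primrec.pair (Primrec.const _) ?_)
    (Primrec.const _))
  have h : (fun n : ℕ => List.replicate n (Sum.inl 2 : Fin 3 ⊕ ℕ)) =
      fun n => (List.range n).map (fun _ => (Sum.inl 2 : Fin 3 ⊕ ℕ)) := by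
    funext n
    simp
  rw [h]
  exact Primrec.list_map Primrec.list_range (Primrec.const _).to₂

/-- In the monoid `M = ⟨a, b, c | ababcc = 1⟩` the only unit is `1`, so that the Diophantine problem of
its group of units (with any finite list of constants) is decidable, but the Diophantine problem
of `M` is undecidable; every recursively enumerable set `P` of natural numbers is the set of all
`n` such that a fixed finite system together with the equation `x₀ = cⁿ` has a solution in `M`. -/
theorem result :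
    ((∀ u v : List (Fin 3), Eqv w (u ++ v) [] → Eqv w (v ++ u) [] → Eqv w u []) ∧
      ∀ (k : ℕ) (g : Fin k → UnitPair w), ComputablePred (SolvableInUnits g)) ∧
    ¬ ComputablePred (Solvable w) ∧
    ∀ P : ℕ → Prop, REPred P → ∃ S : List (List (Fin 3 ⊕ ℕ) × List (Fin 3 ⊕ ℕ)), ∀ n,
      P n ↔ Solvable w (([Sum.inr 0], List.replicate n (Sum.inl 2)) :: S) := by
  refine ⟨⟨fun u v h1 h2 => eqv_nil_of_unit h1 h2, fun k g => ?_⟩, fun h => ?_, fun P hP =>
    exists_system hP⟩
  · have hall : ∀ S, SolvableInUnits g S := fun S =>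
      ⟨fun _ => ⟨[], [], Eqv.refl _, Eqv.refl _⟩,
        fun e _ => (value_nil g _ e.1).trans (value_nil g _ e.2).symm⟩
    refine ⟨fun S => isTrue (hall S), ?_⟩
    exact Computable.const true
  · obtain ⟨P, hP, hnc⟩ := exists_re
    obtain ⟨S, hS⟩ := exists_system hP
    apply hnc
    obtain ⟨hd, hc⟩ := h
    have h2 : ComputablePred fun n : ℕ =>
        Solvable w (([Sum.inr 0], List.replicate n (Sum.inl 2)) :: S) :=
      ⟨fun n => hd _, hc.comp (computable_sys S)⟩
    exact h2.of_eq fun n => (hS n).symm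

end Pool.Agent.Results.MP_d1ce81_al.TrivialUnits
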